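import Pool.Agent.Helper92.RC.M_VPR

/-!
# Project RC, track A: the pair inequalities VPRA, VPRB, VPRC
-/

namespace Pool.Agent.Helper92.RC

open Helper56.RC

/-- the finite checks of an option (`k = 0, 2, 3, 4`) -/
def chk (d r : ℤ) (l comp : ℚ) (T : ℤ → ℚ) : Prop :=
  0 ≤ G0 l ∧
  (0 < cP d r l T 0 ∧ G0 l ^ 2 ≤ 4 * cP d r l T 0 * cQ d r l T 0) ∧
  (0 < cP d r l T 2 ∧ G0 l ^ 2 ≤ 4 * cP d r l T 2 * cQ d r l T 2) ∧
  (0 < cP d r l T 3 ∧ G0 l ^ 2 ≤ 4 * cP d r l T 3 * cQ d r l T 3) ∧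
  (0 < cP d r l T 4 ∧ 0 < 4 * cP d r l T 4 * cQ d r l T 4 - G0 l ^ 2 ∧
    (2 * G0 l * u10 d r + 4 * cP d r l T 4 * u8 d r) ^ 2 ≤
      4 * (4 * cP d r l T 4 * cQ d r l T 4 - G0 l ^ 2) * (4 * cP d r l T 4 * comp - u10 d r ^ 2)) ∧
  (79 / 100 ≤ G0 l) ∧
  (0 < T 2 ∧ 0 < T 0 ∧ 0 < T 6 ∧ 0 < T (-4) ∧ 0 < T 8 ∧ 0 < T (-6) ∧ 0 < T 10 ∧ 0 < T (-8))

instance (d r : ℤ) (l comp : ℚ) (T : ℤ → ℚ) : Decidable (chk d r l comp T) := by
  unfold chk
  infer_instance

variable {d r : ℤ}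

theorem step (h : StTrg) (l : ℚ) (θ : ℤ → ℝ) (T : ℤ → ℚ) (hT : ∀ m, θ m = (T m : ℝ))
    (k : ℕ) (hk : k ≠ 1) (hG : 0 ≤ G0 l) (h1 : 0 < T (2 * k + 2)) (h2 : 0 < T (-(2 * k)))
    (v v' : ℂ) (L : ℝ)
    (hL : L ≤ (cP d r l T k : ℝ) * ‖v‖ ^ 2 + (cQ d r l T k : ℝ) * ‖v'‖ ^ 2 - (G0 l : ℝ) * (‖v‖ * ‖v'‖)) :
    L + vC θ (d * Real.pi / 120) (2 * (r * Real.pi / 120)) (2 * k + 2) * ‖v‖ ^ 2
      + vC θ (d * Real.pi / 120) (2 * (r * Real.pi / 120)) (-(2 * k)) * ‖v'‖ ^ 2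
    ≤ (FSc (1 / 20) (33 / 200) - (l : ℝ)) * (47 / 100) * (‖v‖ ^ 2 + ‖v'‖ ^ 2 + (v * v').re)
    + 19 / 20 * (4 * sgm (d * Real.pi / 120) (2 * (r * Real.pi / 120)) (2 * k + 2) / (2 * k + 2)) * ‖v‖ ^ 2
    - (if k = 0 then 0 else 19 / 20 * (4 * sgm (d * Real.pi / 120) (2 * (r * Real.pi / 120)) (2 * k) / (2 * k))
        * ‖v'‖ ^ 2) := by
  have hA := vC_le (d := d) (r := r) h θ T hT (2 * k + 2) (by omega) h1
  have hB := vC_le (d := d) (r := r) h θ T hT (-(2 * k)) (by omega) h2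
  have hs := (sgm_mem (d := d) (r := r) h (2 * k + 2)).1
  have hs' := (sgm_mem (d := d) (r := r) h (2 * k)).2
  set s1 : ℝ := 19 / 20 * (4 * sgm (d * Real.pi / 120) (2 * (r * Real.pi / 120)) (2 * k + 2) / (2 * k + 2))
    with hs1
  set s2 : ℝ := (if k = 0 then 0 else 19 / 20 * (4 * sgm (d * Real.pi / 120) (2 * (r * Real.pi / 120)) (2 * k) / (2 * k)))
    with hs2
  have e : (if k = 0 then 0 else 19 / 20 * (4 * sgm (d * Real.pi / 120) (2 * (r * Real.pi / 120)) (2 * k) / (2 * k))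
        * ‖v'‖ ^ 2) = s2 * ‖v'‖ ^ 2 := by
    rw [hs2]
    split_ifs
    · ring
    · rfl
  rw [e]
  have hP : (cP d r l T k : ℝ) ≤ (G0 l : ℝ) + s1 - ((uV d r (2 * k + 2) / T (2 * k + 2) : ℚ) : ℝ) := by
    have : (cP d r l T k : ℝ) = (G0 l : ℝ) + 19 / 20 * (4 * (lS d r (2 * k + 2) : ℝ) / (2 * k + 2))
        - ((uV d r (2 * k + 2) / T (2 * k + 2) : ℚ) : ℝ) := by
      unfold cP
      push_cast
      ring
    rw [this, hs1]
    have h3 : (4 * (lS d r (2 * k + 2) : ℝ) / (2 * k + 2))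
        ≤ 4 * sgm (d * Real.pi / 120) (2 * (r * Real.pi / 120)) (2 * k + 2) / (2 * k + 2) := by
      apply div_le_div_of_nonneg_right _ (by positivity)
      linarith
    linarith
  have hQ : (cQ d r l T k : ℝ) ≤ (G0 l : ℝ) - s2 - ((uV d r (-(2 * k)) / T (-(2 * k)) : ℚ) : ℝ) := by
    have : (cQ d r l T k : ℝ) = (G0 l : ℝ) - (if k = 0 then 0 else 19 / 20 * (4 * (uS d r (2 * k) : ℝ) / (2 * k)))
        - ((uV d r (-(2 * k)) / T (-(2 * k)) : ℚ) : ℝ) := by
      unfold cQ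
      push_cast
      by_cases h0 : k = 0
      · simp [h0]
      · simp [h0]
    rw [this, hs2]
    by_cases h0 : k = 0
    · simp [h0]
    · rw [if_neg h0, if_neg h0]
      have h3 : 4 * sgm (d * Real.pi / 120) (2 * (r * Real.pi / 120)) (2 * k) / (2 * k)
          ≤ (4 * (uS d r (2 * k) : ℝ) / (2 * k)) := by
        apply div_le_div_of_nonneg_right _ (by positivity)
        linarith
      linarith
  have hg : (G0 l : ℝ) ≤ (FSc (1 / 20) (33 / 200) - (l : ℝ)) * (47 / 100) := by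
    have := FSc_ge
    unfold G0
    push_cast
    linarith
  exact core _ _ _ _ _ _ s1 s2 _ _ L ‖v‖ ‖v'‖ _ hg (by exact_mod_cast hG) (re_ge v v') hP hQ hA hB hL

/-- crude bound of `vC` for `|m| ≥ 10` -/
theorem vC_tail (θ : ℤ → ℝ) (a b : ℝ) (m : ℤ) (hm : 10 ≤ |m|) (ht : θ m = 1) :
    vC θ a b m ≤ 12 / 100 := by
  have h0 : m ≠ 4 := by
    rintro rfl
    norm_num at hm
  refine (vC_eq_le θ a b m h0 (by rw [ht]; norm_num)).trans ?_
  rw [ht]
  have hb : ∀ (j : ℤ) (c : ℝ), 0 < c → c ≤ |(j : ℝ)| → |KK a b j| ≤ 4 / c := by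
    intro j c hc hj
    exact (KK_le4 a b j).trans (div_le_div_of_nonneg_left (by norm_num) hc hj)
  have hm' : (10 : ℝ) ≤ |(m : ℝ)| := by
    exact_mod_cast hm
  have k1 : |KK a b (2 * m - 3)| + |KK a b (2 * m + 3)| ≤ 4 / 17 + 4 / 23 := by
    rcases le_or_gt 0 m with h | h
    · have hp : (0 : ℝ) ≤ (m : ℝ) := by exact_mod_cast h
      rw [abs_of_nonneg hp] at hm'
      have a1 := hb (2 * m - 3) 17 (by norm_num) (by
        push_cast
        rw [abs_of_nonneg (by linarith)]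
        linarith)
      have a2 := hb (2 * m + 3) 23 (by norm_num) (by
        push_cast
        rw [abs_of_nonneg (by linarith)]
        linarith)
      linarith
    · have hp : (m : ℝ) < 0 := by exact_mod_cast h
      rw [abs_of_neg hp] at hm'
      have a1 := hb (2 * m - 3) 23 (by norm_num) (by
        push_cast
        rw [abs_of_neg (by linarith)]
        linarith)
      have a2 := hb (2 * m + 3) 17 (by norm_num) (by
        push_cast
        rw [abs_of_neg (by linarith)]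
        linarith)
      linarith
  have k2 : |KK a b (2 * m - 9)| + |KK a b (2 * m + 9)| ≤ 4 / 11 + 4 / 29 := by
    rcases le_or_gt 0 m with h | h
    · have hp : (0 : ℝ) ≤ (m : ℝ) := by exact_mod_cast h
      rw [abs_of_nonneg hp] at hm'
      have a1 := hb (2 * m - 9) 11 (by norm_num) (by
        push_cast
        rw [abs_of_nonneg (by linarith)]
        linarith)
      have a2 := hb (2 * m + 9) 29 (by norm_num) (by
        push_cast
        rw [abs_of_nonneg (by linarith)]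
        linarith)
      linarith
    · have hp : (m : ℝ) < 0 := by exact_mod_cast h
      rw [abs_of_neg hp] at hm'
      have a1 := hb (2 * m - 9) 29 (by norm_num) (by
        push_cast
        rw [abs_of_neg (by linarith)]
        linarith)
      have a2 := hb (2 * m + 9) 11 (by norm_num) (by
        push_cast
        rw [abs_of_neg (by linarith)]
        linarith)
      linarith
  norm_num at k1 k2 ⊢
  linarith

theorem sgm_01 (a b : ℝ) (m : ℤ) : 0 ≤ sgm a b m ∧ sgm a b m ≤ 1 := by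
  unfold sgm
  have h : |Real.cos (2 * m * (Real.pi / 3 + a)) * Real.cos (m * b)| ≤ 1 := by
    rw [abs_mul]
    have h1 := Real.abs_cos_le_one (2 * m * (Real.pi / 3 + a))
    have h2 := Real.abs_cos_le_one (m * b)
    calc _ ≤ (1 : ℝ) * 1 := mul_le_mul h1 h2 (abs_nonneg _) (by norm_num)
      _ = 1 := by norm_num
  rw [abs_le] at h
  constructor <;> linarith [h.1, h.2]

theorem tail (a b : ℝ) (l : ℚ) (θ : ℤ → ℝ) (hG : 79 / 100 ≤ G0 l) (k : ℕ) (hk : 5 ≤ k)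
    (ht1 : θ (2 * k + 2) = 1) (ht2 : θ (-(2 * k)) = 1) (v v' : ℂ) :
    0 + vC θ a b (2 * k + 2) * ‖v‖ ^ 2 + vC θ a b (-(2 * k)) * ‖v'‖ ^ 2
    ≤ (FSc (1 / 20) (33 / 200) - (l : ℝ)) * (47 / 100) * (‖v‖ ^ 2 + ‖v'‖ ^ 2 + (v * v').re)
    + 19 / 20 * (4 * sgm a b (2 * k + 2) / (2 * k + 2)) * ‖v‖ ^ 2
    - (if k = 0 then 0 else 19 / 20 * (4 * sgm a b (2 * k) / (2 * k)) * ‖v'‖ ^ 2) := by
  rw [if_neg (by omega)]
  have hA := vC_tail θ a b (2 * k + 2) (by rw [abs_of_nonneg (by omega)]; omega) ht1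
  have hB := vC_tail θ a b (-(2 * k)) (by rw [abs_neg, abs_of_nonneg (by omega)]; omega) ht2
  have hg0 : (G0 l : ℝ) ≤ (FSc (1 / 20) (33 / 200) - (l : ℝ)) * (47 / 100) := by
    have := FSc_ge
    unfold G0
    push_cast
    linarith
  have hG' : (79 / 100 : ℝ) ≤ (G0 l : ℝ) := by
    have : ((79 / 100 : ℚ) : ℝ) ≤ (G0 l : ℝ) := by exact_mod_cast hG
    norm_num at this
    linarith
  have hkr : (5 : ℝ) ≤ (k : ℝ) := by exact_mod_cast hk
  have hs1 : 0 ≤ 19 / 20 * (4 * sgm a b (2 * k + 2) / (2 * k + 2)) := by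
    have := (sgm_01 a b (2 * k + 2)).1
    positivity
  have hs2 : 19 / 20 * (4 * sgm a b (2 * k) / (2 * k)) ≤ 38 / 100 := by
    have h1 := (sgm_01 a b (2 * k)).2
    have h2 : 4 * sgm a b (2 * k) / (2 * (k : ℝ)) ≤ 4 / 10 := by
      rw [div_le_div_iff₀ (by positivity) (by norm_num)]
      nlinarith
    linarith
  apply core _ (79 / 100) (67 / 100) (29 / 100) (12 / 100) (12 / 100) _ _ _ _ 0 ‖v‖ ‖v'‖ _
    (hG'.trans hg0) (by norm_num) (re_ge v v') _ _ hA hB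
  · exact quad_hom _ _ _ _ _ (by norm_num) (by norm_num)
  · linarith
  · linarith

theorem vpr (h : StTrg) (d r : ℤ) (l comp : ℚ) (θ : ℤ → ℝ) (T : ℤ → ℚ) (hT : ∀ m, θ m = (T m : ℝ))
    (hc : chk d r l comp T) (ht : ∀ m : ℤ, m ≤ -10 ∨ 12 ≤ m → T m = 1) :
    Vpr (d * Real.pi / 120) (2 * (r * Real.pi / 120)) l comp θ := by
  obtain ⟨g0, ⟨p0, q0⟩, ⟨p2, q2⟩, ⟨p3, q3⟩, ⟨p4, q4, r4⟩, g1, t2, t0, t6, t4', t8, t6', t10, t8'⟩ := hc
  intro k v v' hk
  have hcase : k = 0 ∨ k = 2 ∨ k = 3 ∨ k = 4 ∨ 5 ≤ k := by omega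
  rcases hcase with rfl | rfl | rfl | rfl | hk5
  · have hL := quad_hom (cP d r l T 0 : ℝ) (cQ d r l T 0 : ℝ) (G0 l : ℝ) ‖v‖ ‖v'‖
      (by exact_mod_cast p0) (by exact_mod_cast q0)
    have := step (d := d) (r := r) h l θ T hT 0 (by norm_num) g0 (by simpa using t2) (by simpa using t0) v v' 0
      (by simpa using hL)
    simpa using this
  · have hL := quad_hom (cP d r l T 2 : ℝ) (cQ d r l T 2 : ℝ) (G0 l : ℝ) ‖v‖ ‖v'‖
      (by exact_mod_cast p2) (by exact_mod_cast q2)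
    have := step (d := d) (r := r) h l θ T hT 2 (by norm_num) g0 (by simpa using t6) (by simpa using t4') v v' 0
      (by simpa using hL)
    simpa using this
  · have hL := quad_hom (cP d r l T 3 : ℝ) (cQ d r l T 3 : ℝ) (G0 l : ℝ) ‖v‖ ‖v'‖
      (by exact_mod_cast p3) (by exact_mod_cast q3)
    have := step (d := d) (r := r) h l θ T hT 3 (by norm_num) g0 (by simpa using t8) (by simpa using t6') v v' 0
      (by simpa using hL)
    simpa using this
  · have hL := quad_lin (cP d r l T 4 : ℝ) (cQ d r l T 4 : ℝ) (G0 l : ℝ) (u10 d r : ℝ) (u8 d r : ℝ) (comp : ℝ)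
      ‖v‖ ‖v'‖ (by exact_mod_cast p4) (by exact_mod_cast q4) (by exact_mod_cast r4)
    have h1 := l10_le (d := d) (r := r) h
    have h2 := l8_le (d := d) (r := r) h
    have h3 := mul_le_mul_of_nonneg_right h1 (norm_nonneg v)
    have h4 := mul_le_mul_of_nonneg_right h2 (norm_nonneg v')
    have := step (d := d) (r := r) h l θ T hT 4 (by norm_num) g0 (by simpa using t10) (by simpa using t8') v v'
      (l10 (d * Real.pi / 120) (2 * (r * Real.pi / 120)) * ‖v‖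
        + l8 (d * Real.pi / 120) (2 * (r * Real.pi / 120)) * ‖v'‖ - comp)
      (by push_cast; linarith)
    simpa using this
  · have := tail (d * Real.pi / 120) (2 * (r * Real.pi / 120)) l θ g1 k hk5
      (by rw [hT, ht _ (Or.inr (by omega))]; norm_num) (by rw [hT, ht _ (Or.inl (by omega))]; norm_num) v v'
    rw [if_neg (by omega)]
    exact this

/-- rational copies of the weights -/
def TA (m : ℤ) : ℚ :=
  if m = -8 then 5 / 4 else if m = -6 then 3 / 2 else if m = -4 then 23 / 4 else if m = -2 then 31 / 4 else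
  if m = 0 then 1 / 4 else if m = 2 then 1 / 2 else if m = 4 then 9 / 4 else if m = 6 then 4 else
  if m = 8 then 3 / 2 else if m = 10 then 5 / 4 else 1

def TB (m : ℤ) : ℚ :=
  if m = -8 then 5 / 4 else if m = -6 then 3 / 4 else if m = -4 then 7 / 4 else if m = -2 then 21 / 4 else
  if m = 0 then 11 / 4 else if m = 2 then 3 / 2 else if m = 4 then 13 / 4 else if m = 6 then 17 / 4 else
  if m = 8 then 9 / 4 else if m = 10 then 3 / 2 else 1

def TC (m : ℤ) : ℚ :=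
  if m = -8 then 5 / 2 else if m = -6 then 5 / 4 else if m = -4 then 1 else if m = -2 then 21 / 4 else
  if m = 0 then 3 / 4 else if m = 2 then 3 / 4 else if m = 4 then 3 else if m = 6 then 7 / 4 else
  if m = 8 then 1 / 2 else if m = 10 then 3 else 1

theorem thA_eq (m : ℤ) : thA m = (TA m : ℝ) := by
  unfold thA TA
  split_ifs <;> norm_num

theorem thB_eq (m : ℤ) : thB m = (TB m : ℝ) := by
  unfold thB TB
  split_ifs <;> norm_num

theorem thC_eq (m : ℤ) : thC m = (TC m : ℝ) := by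
  unfold thC TC
  split_ifs <;> norm_num

theorem TA_tail (m : ℤ) (hm : m ≤ -10 ∨ 12 ≤ m) : TA m = 1 := by
  unfold TA
  split_ifs <;> first | rfl | omega

theorem TB_tail (m : ℤ) (hm : m ≤ -10 ∨ 12 ≤ m) : TB m = 1 := by
  unfold TB
  split_ifs <;> first | rfl | omega

theorem TC_tail (m : ℤ) (hm : m ≤ -10 ∨ 12 ≤ m) : TC m = 1 := by
  unfold TC
  split_ifs <;> first | rfl | omega

theorem hVPRA (h : StTrg) : StVprA := by
  have h1 := vpr h (-1) 3 (1 / 20) (1 / 1000) thA TA thA_eq (by decide +kernel) TA_tail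
  unfold StVprA
  have e1 : ((-1 : ℤ) : ℝ) * Real.pi / 120 = -(Real.pi / 120) := by push_cast; ring
  have e2 : 2 * (((3 : ℤ) : ℝ) * Real.pi / 120) = Real.pi / 20 := by push_cast; ring
  rw [e1, e2] at h1
  norm_num at h1 ⊢
  exact h1

theorem hVPRB (h : StTrg) : StVprB := by
  have h1 := vpr h 3 6 (1 / 25) (3 / 1000) thB TB thB_eq (by decide +kernel) TB_tail
  unfold StVprB
  have e1 : ((3 : ℤ) : ℝ) * Real.pi / 120 = Real.pi / 40 := by push_cast; ring
  have e2 : 2 * (((6 : ℤ) : ℝ) * Real.pi / 120) = Real.pi / 10 := by push_cast; ring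
  rw [e1, e2] at h1
  norm_num at h1 ⊢
  exact h1

theorem hVPRC (h : StTrg) : StVprC := by
  have h1 := vpr h 4 8 (33 / 500) (27 / 5000) thC TC thC_eq (by decide +kernel) TC_tail
  unfold StVprC
  have e1 : ((4 : ℤ) : ℝ) * Real.pi / 120 = Real.pi / 30 := by push_cast; ring
  have e2 : 2 * (((8 : ℤ) : ℝ) * Real.pi / 120) = 2 * Real.pi / 15 := by push_cast; ring
  rw [e1, e2] at h1
  norm_num at h1 ⊢
  exact h1

end Pool.Agent.Helper92.RC
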