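import Pool.Agent.Helper56.RC.StF

/-!
# Project RC, track A: the pair inequalities VPRA, VPRB, VPRC (from the table of cosines)
-/

namespace Pool.Agent.Helper92.RC

open Helper56.RC

/-- upper bound of `|cos (k π/120)|` -/
def uc (k : ℤ) : ℚ := (|cT k| + 10) / 10 ^ 6

/-- upper bound of `|KK|`, `d = d' π/120`, `ρ = 2 r' π/120` -/
def uK (d r j : ℤ) : ℚ := uc (40 * (1 + j) + j * d) * (4 / |(j : ℚ)| * uc (j * r - 60))

def uV (d r m : ℤ) : ℚ :=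
  19 / 80 * (11 / 10 * (uK d r (2 * m - 3) + uK d r (2 * m + 3))
    + 1 / 10 * (uK d r (2 * m - 9) + uK d r (2 * m + 9)))

/-- middle value of the product of cosines in `sgm` -/
def mS (d r m : ℤ) : ℚ := (cT (2 * m * (40 + d)) : ℚ) / 10 ^ 6 * ((cT (2 * m * r) : ℚ) / 10 ^ 6)

def lS (d r m : ℤ) : ℚ := 1 / 2 - 1 / 2 * (mS d r m + 3 / 10 ^ 5)

def uS (d r m : ℤ) : ℚ := 1 / 2 - 1 / 2 * (mS d r m - 3 / 10 ^ 5)

def u10 (d r : ℤ) : ℚ := 19 / 20 * (1 / 10) * (uc (400 + 11 * d) * (4 / 11 * uc (11 * r - 60)))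

def u8 (d r : ℤ) : ℚ := 19 / 20 * (1 / 10) * (uc (320 + 7 * d) * (4 / 7 * uc (7 * r - 60)))

def G0 (l : ℚ) : ℚ := (175660 / 100000 - l) * (47 / 100)

/-- coefficient of `‖v‖²` -/
def cP (d r : ℤ) (l : ℚ) (T : ℤ → ℚ) (k : ℤ) : ℚ :=
  G0 l + 19 / 20 * (4 * lS d r (2 * k + 2) / (2 * k + 2)) - uV d r (2 * k + 2) / T (2 * k + 2)

/-- coefficient of `‖v'‖²` -/
def cQ (d r : ℤ) (l : ℚ) (T : ℤ → ℚ) (k : ℤ) : ℚ :=
  G0 l - (if k = 0 then 0 else 19 / 20 * (4 * uS d r (2 * k) / (2 * k))) - uV d r (-(2 * k)) / T (-(2 * k))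

variable {d r : ℤ}

theorem cos_abs (h : StTrg) (k : ℤ) : |Real.cos (k * Real.pi / 120)| ≤ (uc k : ℝ) := by
  have h1 := h k
  have h2 : |Real.cos (k * Real.pi / 120)|
      ≤ |Real.cos (k * Real.pi / 120) - (cT k : ℝ) / 10 ^ 6| + |(cT k : ℝ) / 10 ^ 6| := by
    have := abs_add_le (Real.cos (k * Real.pi / 120) - (cT k : ℝ) / 10 ^ 6) ((cT k : ℝ) / 10 ^ 6)
    rwa [sub_add_cancel] at this
  have h3 : |(cT k : ℝ) / 10 ^ 6| = |(cT k : ℝ)| / 10 ^ 6 := by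
    rw [abs_div, abs_of_pos (by positivity : (0 : ℝ) < 10 ^ 6)]
  have h4 : (uc k : ℝ) = |(cT k : ℝ)| / 10 ^ 6 + 1 / 10 ^ 5 := by
    unfold uc
    push_cast
    ring
  rw [h4]
  linarith

theorem uc_nonneg (k : ℤ) : (0 : ℝ) ≤ (uc k : ℝ) := by
  unfold uc
  push_cast
  positivity

theorem sin_abs (h : StTrg) (k : ℤ) : |Real.sin (k * Real.pi / 120)| ≤ (uc (k - 60) : ℝ) := by
  have h1 := cos_abs h (k - 60)
  have h2 : ((k - 60 : ℤ) : ℝ) * Real.pi / 120 = k * Real.pi / 120 - Real.pi / 2 := by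
    push_cast
    ring
  rw [h2, Real.cos_sub_pi_div_two] at h1
  exact h1

theorem KK_le (h : StTrg) (j : ℤ) :
    |KK (d * Real.pi / 120) (2 * (r * Real.pi / 120)) j| ≤ (uK d r j : ℝ) := by
  unfold KK RR uK
  rw [abs_mul, abs_mul]
  have e1 : Real.pi * (1 + (j : ℝ)) / 3 + j * (d * Real.pi / 120)
      = ((40 * (1 + j) + j * d : ℤ) : ℝ) * Real.pi / 120 := by
    push_cast
    ring
  have e2 : (j : ℝ) * (2 * (r * Real.pi / 120)) / 2 = ((j * r : ℤ) : ℝ) * Real.pi / 120 := by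
    push_cast
    ring
  rw [e1, e2]
  have h1 := cos_abs h (40 * (1 + j) + j * d)
  have h2 := sin_abs h (j * r)
  have e3 : |4 / (j : ℝ)| = 4 / |(j : ℝ)| := by
    rw [abs_div, abs_of_pos (by norm_num : (0 : ℝ) < 4)]
  rw [e3]
  have h3 : (0 : ℝ) ≤ 4 / |(j : ℝ)| := by positivity
  have e4 : ((uc (40 * (1 + j) + j * d) * (4 / |(j : ℚ)| * uc (j * r - 60)) : ℚ) : ℝ)
      = (uc (40 * (1 + j) + j * d) : ℝ) * (4 / |(j : ℝ)| * (uc (j * r - 60) : ℝ)) := by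
    push_cast
    rfl
  rw [e4]
  exact mul_le_mul h1 (mul_le_mul_of_nonneg_left h2 h3) (by positivity) (uc_nonneg _)

theorem KK_le4 (a b : ℝ) (j : ℤ) : |KK a b j| ≤ 4 / |(j : ℝ)| := by
  unfold KK RR
  rw [abs_mul, abs_mul, abs_div, abs_of_pos (by norm_num : (0 : ℝ) < 4)]
  have h1 := Real.abs_cos_le_one (Real.pi * (1 + (j : ℝ)) / 3 + j * a)
  have h2 := Real.abs_sin_le_one ((j : ℝ) * b / 2)
  have h3 : (0 : ℝ) ≤ 4 / |(j : ℝ)| := by positivity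
  calc |Real.cos (Real.pi * (1 + (j : ℝ)) / 3 + j * a)| * (4 / |(j : ℝ)| * |Real.sin ((j : ℝ) * b / 2)|)
      ≤ 1 * (4 / |(j : ℝ)| * 1) :=
        mul_le_mul h1 (mul_le_mul_of_nonneg_left h2 h3) (by positivity) (by norm_num)
    _ = _ := by ring

theorem vC_eq_le (θ : ℤ → ℝ) (a b : ℝ) (m : ℤ) (hm : m ≠ 4) (ht : 0 < θ m) :
    vC θ a b m ≤ 19 / 80 * (11 / 10 * (|KK a b (2 * m - 3)| + |KK a b (2 * m + 3)|)
    + 1 / 10 * (|KK a b (2 * m - 9)| + |KK a b (2 * m + 9)|)) / θ m := by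
  have hw : ∀ n, wt θ n m = θ m := by
    intro n
    unfold wt
    rw [if_neg (by tauto)]
  have ha : ∀ n : ℤ, aK a b n m ≤ 19 / 20 * (if (m - n) ^ 2 = 9 then 11 / 10 else 1 / 10) * |KK a b (n + m)| := by
    intro n
    unfold aK
    split_ifs <;> first | exact le_rfl | positivity
  have h1 := ha (m - 9)
  have h2 := ha (m - 3)
  have h3 := ha (m + 3)
  have h4 := ha (m + 9)
  have q1 : (m - (m - 9)) ^ 2 ≠ 9 := by
    have : m - (m - 9) = 9 := by ring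
    rw [this]; norm_num
  have q2 : (m - (m - 3)) ^ 2 = 9 := by
    have : m - (m - 3) = 3 := by ring
    rw [this]; norm_num
  have q3 : (m - (m + 3)) ^ 2 = 9 := by
    have : m - (m + 3) = -3 := by ring
    rw [this]; norm_num
  have q4 : (m - (m + 9)) ^ 2 ≠ 9 := by
    have : m - (m + 9) = -9 := by ring
    rw [this]; norm_num
  rw [if_neg q1] at h1
  rw [if_pos q2] at h2
  rw [if_pos q3] at h3
  rw [if_neg q4] at h4
  have e1 : m - 9 + m = 2 * m - 9 := by ring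
  have e2 : m - 3 + m = 2 * m - 3 := by ring
  have e3 : m + 3 + m = 2 * m + 3 := by ring
  have e4 : m + 9 + m = 2 * m + 9 := by ring
  rw [e1] at h1
  rw [e2] at h2
  rw [e3] at h3
  rw [e4] at h4
  unfold vC
  rw [hw, hw, hw, hw]
  have e5 : aK a b (m - 9) m / (4 * θ m) + aK a b (m - 3) m / (4 * θ m) + aK a b (m + 3) m / (4 * θ m)
      + aK a b (m + 9) m / (4 * θ m)
      = (aK a b (m - 9) m + aK a b (m - 3) m + aK a b (m + 3) m + aK a b (m + 9) m) / 4 / θ m := by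
    field_simp
  rw [e5]
  apply div_le_div_of_nonneg_right _ ht.le
  linarith

theorem vC_le (h : StTrg) (θ : ℤ → ℝ) (T : ℤ → ℚ) (hT : ∀ m, θ m = (T m : ℝ)) (m : ℤ) (hm : m ≠ 4)
    (ht : 0 < T m) :
    vC θ (d * Real.pi / 120) (2 * (r * Real.pi / 120)) m ≤ ((uV d r m / T m : ℚ) : ℝ) := by
  have ht' : 0 < θ m := by
    rw [hT m]
    exact_mod_cast ht
  refine (vC_eq_le θ _ _ m hm ht').trans ?_
  rw [Rat.cast_div, ← hT m]
  apply div_le_div_of_nonneg_right _ ht'.le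
  unfold uV
  push_cast
  have h1 := KK_le h (d := d) (r := r) (2 * m - 3)
  have h2 := KK_le h (d := d) (r := r) (2 * m + 3)
  have h3 := KK_le h (d := d) (r := r) (2 * m - 9)
  have h4 := KK_le h (d := d) (r := r) (2 * m + 9)
  linarith

theorem sgm_mem (h : StTrg) (m : ℤ) :
    (lS d r m : ℝ) ≤ sgm (d * Real.pi / 120) (2 * (r * Real.pi / 120)) m ∧
    sgm (d * Real.pi / 120) (2 * (r * Real.pi / 120)) m ≤ (uS d r m : ℝ) := by
  unfold sgm lS uS mS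
  have e1 : 2 * (m : ℝ) * (Real.pi / 3 + d * Real.pi / 120)
      = ((2 * m * (40 + d) : ℤ) : ℝ) * Real.pi / 120 := by
    push_cast
    ring
  have e2 : (m : ℝ) * (2 * (r * Real.pi / 120)) = ((2 * m * r : ℤ) : ℝ) * Real.pi / 120 := by
    push_cast
    ring
  rw [e1, e2]
  have h1 := h (2 * m * (40 + d))
  have h2 := h (2 * m * r)
  set c1 := Real.cos (((2 * m * (40 + d) : ℤ) : ℝ) * Real.pi / 120) with hc1
  set c2 := Real.cos (((2 * m * r : ℤ) : ℝ) * Real.pi / 120) with hc2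
  have b1 : |c1| ≤ 1 := Real.abs_cos_le_one _
  have b2 : |c2| ≤ 1 := Real.abs_cos_le_one _
  set t1 : ℝ := (cT (2 * m * (40 + d)) : ℝ) / 10 ^ 6 with ht1
  set t2 : ℝ := (cT (2 * m * r) : ℝ) / 10 ^ 6 with ht2
  have key : |c1 * c2 - t1 * t2| ≤ 3 / 10 ^ 5 := by
    have e : c1 * c2 - t1 * t2 = c2 * (c1 - t1) + t1 * (c2 - t2) := by ring
    have ht : |t1| ≤ 1 + 1 / 10 ^ 5 := by
      have h5 := abs_add_le (t1 - c1) c1
      rw [sub_add_cancel, abs_sub_comm] at h5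
      linarith
    rw [e]
    calc |c2 * (c1 - t1) + t1 * (c2 - t2)| ≤ |c2 * (c1 - t1)| + |t1 * (c2 - t2)| := abs_add_le _ _
      _ = |c2| * |c1 - t1| + |t1| * |c2 - t2| := by rw [abs_mul, abs_mul]
      _ ≤ 1 * (1 / 10 ^ 5) + (1 + 1 / 10 ^ 5) * (1 / 10 ^ 5) := by
          apply add_le_add
          · exact mul_le_mul b2 h1 (abs_nonneg _) (by norm_num)
          · exact mul_le_mul ht h2 (abs_nonneg _) (by norm_num)
      _ ≤ 3 / 10 ^ 5 := by norm_num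
  rw [abs_le] at key
  push_cast
  rw [← ht1, ← ht2]
  constructor <;> linarith [key.1, key.2]

theorem l10_le (h : StTrg) : l10 (d * Real.pi / 120) (2 * (r * Real.pi / 120)) ≤ (u10 d r : ℝ) := by
  unfold l10 u10
  have e1 : 10 * Real.pi / 3 + 11 * ((d : ℝ) * Real.pi / 120) = ((400 + 11 * d : ℤ) : ℝ) * Real.pi / 120 := by
    push_cast
    ring
  have e2 : 11 * (2 * ((r : ℝ) * Real.pi / 120)) / 2 = ((11 * r : ℤ) : ℝ) * Real.pi / 120 := by
    push_cast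
    ring
  rw [e1, e2, abs_mul, abs_mul, abs_of_pos (by norm_num : (0 : ℝ) < 4 / 11)]
  have h1 := cos_abs h (400 + 11 * d)
  have h2 := sin_abs h (11 * r)
  push_cast at h1 h2 ⊢
  apply mul_le_mul_of_nonneg_left _ (by norm_num)
  exact mul_le_mul h1 (mul_le_mul_of_nonneg_left h2 (by norm_num)) (by positivity) (uc_nonneg _)

theorem l8_le (h : StTrg) : l8 (d * Real.pi / 120) (2 * (r * Real.pi / 120)) ≤ (u8 d r : ℝ) := by
  unfold l8 u8
  have e1 : 8 * Real.pi / 3 + 7 * ((d : ℝ) * Real.pi / 120) = ((320 + 7 * d : ℤ) : ℝ) * Real.pi / 120 := by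
    push_cast
    ring
  have e2 : 7 * (2 * ((r : ℝ) * Real.pi / 120)) / 2 = ((7 * r : ℤ) : ℝ) * Real.pi / 120 := by
    push_cast
    ring
  rw [e1, e2, abs_mul, abs_mul, abs_of_pos (by norm_num : (0 : ℝ) < 4 / 7)]
  have h1 := cos_abs h (320 + 7 * d)
  have h2 := sin_abs h (7 * r)
  push_cast at h1 h2 ⊢
  apply mul_le_mul_of_nonneg_left _ (by norm_num)
  exact mul_le_mul h1 (mul_le_mul_of_nonneg_left h2 (by norm_num)) (by positivity) (uc_nonneg _)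

/-- quadratic form in two variables with linear terms -/
theorem quad_lin (P Q G a b c x y : ℝ) (hP : 0 < P) (hD : 0 < 4 * P * Q - G ^ 2)
    (hF : (2 * G * a + 4 * P * b) ^ 2 ≤ 4 * (4 * P * Q - G ^ 2) * (4 * P * c - a ^ 2)) :
    a * x + b * y - c ≤ P * x ^ 2 + Q * y ^ 2 - G * (x * y) := by
  set D := 4 * P * Q - G ^ 2 with hD0
  set E := 2 * G * a + 4 * P * b with hE
  set F := 4 * P * c - a ^ 2 with hF0
  have h1 : 4 * P * (P * x ^ 2 + Q * y ^ 2 - G * (x * y) - (a * x + b * y - c))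
      = (2 * P * x - G * y - a) ^ 2 + (D * y ^ 2 - E * y + F) := by
    rw [hD0, hE, hF0]; ring
  have h2 : 4 * D * (D * y ^ 2 - E * y + F) = (2 * D * y - E) ^ 2 + (4 * D * F - E ^ 2) := by ring
  have h3 : 0 ≤ D * y ^ 2 - E * y + F := by
    have : 0 ≤ 4 * D * (D * y ^ 2 - E * y + F) := by
      rw [h2]
      nlinarith [sq_nonneg (2 * D * y - E)]
    by_contra hneg
    push Not at hneg
    nlinarith
  have h4 : 0 ≤ 4 * P * (P * x ^ 2 + Q * y ^ 2 - G * (x * y) - (a * x + b * y - c)) := by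
    rw [h1]
    positivity
  by_contra hneg
  push Not at hneg
  nlinarith

theorem quad_hom (P Q G x y : ℝ) (hP : 0 < P) (hD : G ^ 2 ≤ 4 * P * Q) :
    0 ≤ P * x ^ 2 + Q * y ^ 2 - G * (x * y) := by
  have h1 : 4 * P * (P * x ^ 2 + Q * y ^ 2 - G * (x * y))
      = (2 * P * x - G * y) ^ 2 + (4 * P * Q - G ^ 2) * y ^ 2 := by ring
  have h4 : 0 ≤ 4 * P * (P * x ^ 2 + Q * y ^ 2 - G * (x * y)) := by
    rw [h1]
    have : 0 ≤ (4 * P * Q - G ^ 2) * y ^ 2 := mul_nonneg (by linarith) (sq_nonneg _)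
    positivity
  by_contra hneg
  push Not at hneg
  nlinarith

theorem re_ge (v v' : ℂ) : -(‖v‖ * ‖v'‖) ≤ (v * v').re := by
  have h := Complex.abs_re_le_norm (v * v')
  rw [norm_mul] at h
  exact (abs_le.mp h).1

theorem FSc_ge : (175660 / 100000 : ℝ) ≤ FSc (1 / 20) (33 / 200) := by
  unfold FSc
  have h : (1.7320 : ℝ) ≤ Real.sqrt 3 := by
    apply Real.le_sqrt_of_sq_le
    norm_num
  linarith

/-- the core: replace all coefficients by bounds -/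
theorem core (G g P Q A B s1 s2 c1 c2 L x y re : ℝ) (hG : g ≤ G) (hg : 0 ≤ g)
    (hre : -(x * y) ≤ re) (hP : P ≤ g + s1 - A) (hQ : Q ≤ g - s2 - B)
    (hA : c1 ≤ A) (hB : c2 ≤ B) (hL : L ≤ P * x ^ 2 + Q * y ^ 2 - g * (x * y)) :
    L + c1 * x ^ 2 + c2 * y ^ 2 ≤ G * (x ^ 2 + y ^ 2 + re) + s1 * x ^ 2 - s2 * y ^ 2 := by
  have h0 : 0 ≤ x ^ 2 + y ^ 2 + re := by nlinarith [sq_nonneg (x - y), sq_nonneg (x + y)]
  have h1 : g * (x ^ 2 + y ^ 2 + re) ≤ G * (x ^ 2 + y ^ 2 + re) := mul_le_mul_of_nonneg_right hG h0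
  have h2 : g * (-(x * y)) ≤ g * re := mul_le_mul_of_nonneg_left hre hg
  have h3 : c1 * x ^ 2 ≤ A * x ^ 2 := mul_le_mul_of_nonneg_right hA (sq_nonneg _)
  have h4 : c2 * y ^ 2 ≤ B * y ^ 2 := mul_le_mul_of_nonneg_right hB (sq_nonneg _)
  have h5 : P * x ^ 2 ≤ (g + s1 - A) * x ^ 2 := mul_le_mul_of_nonneg_right hP (sq_nonneg _)
  have h6 : Q * y ^ 2 ≤ (g - s2 - B) * y ^ 2 := mul_le_mul_of_nonneg_right hQ (sq_nonneg _)
  nlinarith

end Pool.Agent.Helper92.RC
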